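import Pool.Agent.V11288.LZ.Part

/-!
# The rational rank one Stark conjecture for mixed signature characters as a statement on primes

Let `F` be a real quadratic field, `K/F` a finite abelian extension with group `G` such that one infinite place
of `F` stays real and the other becomes complex, `S` a finite set of places as in the conjecture (below `S` is
its finite part), `χ` a character of `G` and `L_S(χ, s)` its `L`-function.  The conjecture asks for an element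
`x = ∑ a_i ⊗ u_i` of `(k ⊗ U_{v,S})^{χ⁻¹}`, `k = ℚ(χ)`, with

`L'_S(χ, 0) = log |x|_v = ∑ a_i log |u_i|_v`.

The number `L'_S(χ, 0)` is defined by analytic continuation.  We show that this identity is an explicit
statement on the Frobenius automorphisms.  Let `γ > π/2`, and for `X > 1`

`W_χ(X) = ∑_{𝔭 ∉ S} ∑_{j ≥ 1} χ(Frob_𝔭)^j / j · e^{iγu} / Γ(1 + u)`,  `u = j log N𝔭 / log X`,

an absolutely convergent series, and `Λ_γ = ∫_0^∞ (e^{-t} - e^{iγt}/Γ(1+t)) dt/t`.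

1. For every complex number `y`: `L_S(χ, s)/s → y` for `s → 0` if and only if
   `(log X) exp W_χ(X) → e^{Λ_γ} y` for `X → ∞`.

2. In this case `(log X) exp W_χ(X) = e^{Λ_γ} y + O(1/log X)`.

3. For every set `T` of elements `x` as above: there is an `x ∈ T` such that `L_S(χ, s)` vanishes at `0` with
   derivative `log |x|_v` if and only if there is an `x ∈ T` with `(log X) exp W_χ(X) → e^{Λ_γ} log |x|_v`.
   With `T = (k ⊗ U_{v,S})^{χ⁻¹}` this is the conjecture for `χ`.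

Nothing is assumed on the zeros of `L_S(χ, s)`; of its continuation only the meromorphic continuation to the
points of the real interval `[0, 1]` is used.  The law is `Pool.Agent.V11288.LZ` (see
`MP_46b841_nt.LeadingTermsByPrimes`), in the form with arbitrary limits and with error term.
-/

set_option autoImplicit false

namespace Pool.Agent.Results.MP_c49e96_nt.DerivativeByPrimes

open Filter Topology Set NumberField IsDedekindDomain

variable {F K : Type} [Field F] [NumberField F] [Field K] [NumberField K] [Algebra F K]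

/-- `g` is the Frobenius automorphism of a prime `Q` of `K` above `v`: `g(x) ≡ x^(N v)` modulo `Q`. -/
def IsFrobenius (v : HeightOneSpectrum (𝓞 F)) (g : K ≃ₐ[F] K) : Prop :=
  ∃ Q : Ideal (𝓞 K), Q.IsPrime ∧ Q.comap (algebraMap (𝓞 F) (𝓞 K)) = v.asIdeal ∧
    ∀ x y : 𝓞 K, (y : K) = g (x : K) → y - x ^ Ideal.absNorm v.asIdeal ∈ Q

/-- The primes outside `S` are unramified in `K` and `frob v` is a Frobenius automorphism for `v ∉ S`. -/
structure IsData (S : Finset (HeightOneSpectrum (𝓞 F)))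
    (frob : HeightOneSpectrum (𝓞 F) → (K ≃ₐ[F] K)) : Prop where
  unramified : ∀ v ∉ S, Squarefree (v.asIdeal.map (algebraMap (𝓞 F) (𝓞 K)))
  frobenius : ∀ v ∉ S, IsFrobenius v (frob v)

/-- `Λ(s) = L_S(χ, s)`: it is the Euler product of the factors `(1 - χ(Frob_v) Nv^{-s})⁻¹`, `v ∉ S`, for
`Re s > 1`, and is meromorphic at the points of the real interval `[0, 1]`. -/
structure IsLFunction (S : Finset (HeightOneSpectrum (𝓞 F)))
    (frob : HeightOneSpectrum (𝓞 F) → (K ≃ₐ[F] K)) (χ : (K ≃ₐ[F] K) →* ℂˣ) (Λ : ℂ → ℂ) : Prop where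
  mero : ∀ x ∈ Icc (0 : ℝ) 1, MeromorphicAt Λ (x : ℂ)
  prod : ∀ s : ℂ, 1 < s.re → Λ s = ∏' v : {v : HeightOneSpectrum (𝓞 F) // v ∉ S},
    (1 - ((χ (frob v.1) : ℂˣ) : ℂ) * ((Ideal.absNorm v.1.asIdeal : ℕ) : ℂ) ^ (-s))⁻¹

/-- The weight `e^{iγu} / Γ(1 + u)`. -/
noncomputable def weight (γ u : ℝ) : ℂ :=
  Complex.exp ((γ * u : ℝ) * Complex.I) / (Real.Gamma (1 + u) : ℂ)

/-- The term of `W_χ(X)` at `(v, j)`. -/
noncomputable def term (frob : HeightOneSpectrum (𝓞 F) → (K ≃ₐ[F] K)) (χ : (K ≃ₐ[F] K) →* ℂˣ)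
    (γ X : ℝ) (v : HeightOneSpectrum (𝓞 F)) (j : ℕ) : ℂ :=
  ((χ (frob v) : ℂˣ) : ℂ) ^ j / j * weight γ (j * Real.log (Ideal.absNorm v.asIdeal) / Real.log X)

/-- `W_χ(X)`, the sum over the primes `v ∉ S` and `j ≥ 1` (here `j = x.2 + 1`). -/
noncomputable def W (S : Finset (HeightOneSpectrum (𝓞 F)))
    (frob : HeightOneSpectrum (𝓞 F) → (K ≃ₐ[F] K)) (χ : (K ≃ₐ[F] K) →* ℂˣ) (γ X : ℝ) : ℂ :=
  ∑' x : {v : HeightOneSpectrum (𝓞 F) // v ∉ S} × ℕ, term frob χ γ X x.1.1 (x.2 + 1)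

/-- `Λ_γ = ∫_0^∞ (e^{-t} - e^{iγt} / Γ(1 + t)) dt / t`. -/
noncomputable def Lam (γ : ℝ) : ℂ := ∫ t in Ioi (0 : ℝ),
  (Complex.exp (-(t : ℂ)) - Complex.exp ((γ * t : ℝ) * Complex.I) * ((Real.Gamma (1 + t))⁻¹ : ℝ)) / t

/-- `Λ(0) = 0` and `Λ'(0) = y`: `Λ(s)/s → y` for `s → 0`. -/
def HasDerivZero (Λ : ℂ → ℂ) (y : ℂ) : Prop := Tendsto (fun s : ℂ => Λ s / s) (𝓝[≠] 0) (𝓝 y)

/-- An element `∑ a_i ⊗ u_i` of `ℂ ⊗ K^×`. -/
structure Elt (K : Type) [Field K] where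
  n : ℕ
  a : Fin n → ℂ
  u : Fin n → Kˣ

/-- `log |∑ a_i ⊗ u_i|_v = ∑ a_i log |u_i|_v`. -/
noncomputable def Elt.logAbs (x : Elt K) (v : InfinitePlace K) : ℂ :=
  ∑ i, x.a i * Real.log (v (x.u i : K))

open Pool.Agent.V11288.LZ

variable {S : Finset (HeightOneSpectrum (𝓞 F))} {frob : HeightOneSpectrum (𝓞 F) → (K ≃ₐ[F] K)}
  {χ : (K ≃ₐ[F] K) →* ℂˣ} {Λ : ℂ → ℂ} {γ : ℝ}

/-- the matrices -/
noncomputable def mat (S : Finset (HeightOneSpectrum (𝓞 F)))
    (frob : HeightOneSpectrum (𝓞 F) → (K ≃ₐ[F] K)) (χ : (K ≃ₐ[F] K) →* ℂˣ)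
    (v : {v : HeightOneSpectrum (𝓞 F) | v ∉ S}) : Matrix (Fin 1) (Fin 1) ℂ :=
  Matrix.diagonal fun _ => ((χ (frob v.1) : ℂˣ) : ℂ)

theorem norm_char (χ : (K ≃ₐ[F] K) →* ℂˣ) (g : K ≃ₐ[F] K) : ‖((χ g : ℂˣ) : ℂ)‖ = 1 := by
  have hfin : Finite (K ≃ₐ[F] K) := inferInstance
  have h1 : ((χ g : ℂˣ) : ℂ) ^ (Nat.card (K ≃ₐ[F] K)) = 1 := by
    rw [← Units.val_pow_eq_pow_val, ← map_pow, pow_card_eq_one', map_one, Units.val_one]
  exact Complex.norm_eq_one_of_pow_eq_one h1 Nat.card_pos.ne'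

theorem eul : Eul 1 0 (fun v : {v : HeightOneSpectrum (𝓞 F) | v ∉ S} =>
    (Ideal.absNorm v.1.asIdeal : ℝ)) (mat S frob χ) := by
  refine eul_alpha (α := fun v _ => ((χ (frob v.1) : ℂˣ) : ℂ)) fun v j => ?_
  rw [norm_char, Real.rpow_zero]

omit [NumberField K] in
theorem term_eq (X : ℝ) (x : {v : HeightOneSpectrum (𝓞 F) | v ∉ S} × ℕ) :
    tm (fun v : {v : HeightOneSpectrum (𝓞 F) | v ∉ S} => (Ideal.absNorm v.1.asIdeal : ℝ))
      (mat S frob χ) 0 γ X x = term frob χ γ X x.1.1 (x.2 + 1) := by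
  unfold tm term mat weight wt
  rw [trace_diagonal_pow, Real.rpow_zero]
  simp

theorem W_eq (X : ℝ) :
    tot (fun v : {v : HeightOneSpectrum (𝓞 F) | v ∉ S} => (Ideal.absNorm v.1.asIdeal : ℝ))
      (mat S frob χ) 0 γ X = W S frob χ γ X :=
  tsum_congr fun x => term_eq X x

omit [NumberField K] in
theorem prod_eq (hΛ : IsLFunction S frob χ Λ) (s : ℂ) (hs : 1 + (0 : ℝ) < s.re) : Λ s =
    ∏' v : {v : HeightOneSpectrum (𝓞 F) | v ∉ S},
      ((1 - (((Ideal.absNorm v.1.asIdeal : ℝ)) : ℂ) ^ (-s) • mat S frob χ v).det)⁻¹ := by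
  rw [hΛ.prod s (by linarith)]
  refine tprod_congr fun v => ?_
  unfold mat
  rw [det_diagonal_sub]
  simp

/-- **The rational rank one Stark conjecture for mixed signature characters by primes.** -/
theorem result [IsGalois F K] (_ : Module.finrank ℚ F = 2) (_ : InfinitePlace.nrRealPlaces F = 2)
    (_ : ∀ g h : K ≃ₐ[F] K, g * h = h * g) (S : Finset (HeightOneSpectrum (𝓞 F)))
    (frob : HeightOneSpectrum (𝓞 F) → (K ≃ₐ[F] K)) (_ : IsData S frob) (χ : (K ≃ₐ[F] K) →* ℂˣ)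
    (Λ : ℂ → ℂ) (hΛ : IsLFunction S frob χ Λ) (γ : ℝ) (hγ : Real.pi / 2 < γ) :
    (∀ X : ℝ, 1 < X → Summable fun x : {v : HeightOneSpectrum (𝓞 F) // v ∉ S} × ℕ =>
      ‖term frob χ γ X x.1.1 (x.2 + 1)‖) ∧
    (∀ y : ℂ, HasDerivZero Λ y ↔ Tendsto (fun X : ℝ => Real.log X * Complex.exp (W S frob χ γ X))
      atTop (𝓝 (Complex.exp (Lam γ) * y))) ∧
    (∀ y : ℂ, HasDerivZero Λ y → (fun X : ℝ => Real.log X * Complex.exp (W S frob χ γ X) -
      Complex.exp (Lam γ) * y) =O[atTop] (fun X : ℝ => 1 / Real.log X)) ∧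
    ∀ (v : InfinitePlace K) (T : Set (Elt K)),
      (∃ x ∈ T, HasDerivZero Λ (x.logAbs v)) ↔
      ∃ x ∈ T, Tendsto (fun X : ℝ => Real.log X * Complex.exp (W S frob χ γ X))
        atTop (𝓝 (Complex.exp (Lam γ) * x.logAbs v)) := by
  have hm : ∀ x ∈ Icc (0 : ℝ) (1 + 0), MeromorphicAt Λ (x : ℂ) :=
    fun x hx => hΛ.mero x ⟨hx.1, by linarith [hx.2]⟩
  have h0 : ∀ y : ℂ, HasDerivZero Λ y ↔
      Tendsto (fun s : ℂ => Λ s / (s - (0 : ℝ)) ^ (1 : ℤ)) (𝓝[≠] ((0 : ℝ) : ℂ)) (𝓝 y) := by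
    intro y
    unfold HasDerivZero
    simp
  have h1 : ∀ y : ℂ, HasDerivZero Λ y ↔
      Tendsto (fun X : ℝ => Real.log X * Complex.exp (W S frob χ γ X))
        atTop (𝓝 (Complex.exp (Lam γ) * y)) := by
    intro y
    rw [h0 y]
    have h2 := (eul (S := S) (frob := frob) (χ := χ)).lead_iff 0 hm (prod_eq hΛ) hγ 1 y
    have hL : Pool.Agent.W187.UR.Lam γ = Lam γ := rfl
    simp only [W_eq, zpow_one, Int.cast_one, one_mul, hL] at h2
    simpa using h2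
  refine ⟨fun X hX => ?_, h1, fun y hy => ?_, fun v T => ?_⟩
  · refine (((eul (S := S) (frob := frob) (χ := χ)).final' (L := Λ) 0 hm (prod_eq hΛ) hγ).1 X
      hX).congr fun x => ?_
    rw [term_eq]
  · have h2 := (eul (S := S) (frob := frob) (χ := χ)).lead_rate 0 hm (prod_eq hΛ) hγ ((h0 y).1 hy)
    simp only [W_eq, zpow_one, Int.cast_one, one_mul] at h2
    exact h2
  · exact exists_congr fun x => and_congr_right fun _ => h1 _

end Pool.Agent.Results.MP_c49e96_nt.DerivativeByPrimes
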